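import Pool.Agent.Helper72.EP.Spec2

/-! # EP, module CER5: a parity violation is closable -/

namespace ErdPos

open Finset

open Classical in
/-- the weight `w` : the value `p` on the edges inside the hulls of `H` -/
noncomputable def cer5_w {V : Type} [DecidableEq V] (G : SimpleGraph V) (F : Finset V → Prop)
    (C : Finset V) (H : Finset (Finset V)) (p : Sym2 V → ZMod 2) (e : Sym2 V) : ZMod 2 :=
  if ∃ a b, e = s(a, b) ∧ Rob G F C a ∧ Rob G F C b ∧ G.Adj a b ∧ cl G F C 5 {a, b} ∈ H
  then p e else 0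

theorem st_CER5 (hPA : ST_PA) (hCA : ST_CA) (hROB : ST_ROB) (hHUL : ST_HUL) (hDEC : ST_DEC)
    (hARC : ST_ARC) : ST_CER5 := by
  intro V _ _ G F C hctx H p hH hHul hHP hF S T hGC hp
  have PA := hPA V G
  have CA := hCA V G
  obtain ⟨rob1, rob2, -, -⟩ := hROB V G F C hctx
  obtain ⟨hul1, hul2⟩ := hHUL V G F C hctx
  -- (W)
  have hW : ∀ S T, GC G F C S T → ∑ e ∈ T, p e = ∑ e ∈ T, cer5_w G F C H p e := by
    intro S T hST
    have h1 := (hDEC V G F C hctx (ZMod 2) (fun e => p e - cer5_w G F C H p e) ⊥ (by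
      intro A u v S T hHPA
      obtain ⟨hA, hZ, huv, hP, hSA⟩ := hHPA
      obtain ⟨hAC, -, -, -, -, -, hZrob, hcl, -, -, -⟩ := hul2 A hA
      have hu : Rob G F C u := hZrob u (by rw [hZ]; simp)
      have hv : Rob G F C v := hZrob v (by rw [hZ]; simp)
      have hrob : ∀ x ∈ S, Rob G F C x :=
        rob1 u v S T hP (hSA.trans hAC) huv hu hv
      have hcond : ∀ e ∈ T, ∀ a b, e = s(a, b) → cl G F C 5 {a, b} = A := by
        intro e he a b hab
        obtain ⟨x, hx, y, hy, hxy, hexy⟩ := PA.tmem u v S T hP e he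
        have h2 : cl G F C 5 {x, y} = A :=
          hcl x y (hrob x hx) (hrob y hy) hxy.ne (hSA hx) (hSA hy)
        rw [hexy] at hab
        rcases Sym2.eq_iff.mp hab with ⟨rfl, rfl⟩ | ⟨rfl, rfl⟩
        · exact h2
        · rw [Finset.pair_comm]; exact h2
      rw [AddSubmonoid.mem_bot]
      by_cases hAH : A ∈ H
      · apply Finset.sum_eq_zero
        intro e he
        obtain ⟨x, hx, y, hy, hxy, hexy⟩ := PA.tmem u v S T hP e he
        have h3 : cer5_w G F C H p e = p e := by
          unfold cer5_w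
          rw [if_pos]
          refine ⟨x, y, hexy, hrob x hx, hrob y hy, hxy, ?_⟩
          rw [hcond e he x y hexy]
          exact hAH
        simp only [h3, sub_self]
      · have h3 : ∀ e ∈ T, p e - cer5_w G F C H p e = p e := by
          intro e he
          have h4 : cer5_w G F C H p e = 0 := by
            unfold cer5_w
            rw [if_neg]
            rintro ⟨a, b, hab, -, -, -, hmem⟩
            rw [hcond e he a b hab] at hmem
            exact hAH hmem
          rw [h4, sub_zero]
        rw [Finset.sum_congr rfl h3]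
        exact hHP A u v S T ⟨hA, hZ, huv, hP, hSA⟩ hAH)).2 S T hST
    rw [AddSubmonoid.mem_bot, Finset.sum_sub_distrib, sub_eq_zero] at h1
    exact h1
  refine ⟨H.biUnion (fun A => Zt G C A), ?_, ?_, ?_⟩
  · intro x hx
    rw [Finset.mem_biUnion] at hx
    obtain ⟨A, hA, hxA⟩ := hx
    obtain ⟨hAC, -, -, -, -, hZA, -, -, -, -, -⟩ := hul2 A (hHul A hA)
    exact hAC (hZA hxA)
  · have h1 : (H.biUnion (fun A => Zt G C A)).card ≤ H.card * 2 := by
      apply Finset.card_biUnion_le_card_mul
      intro A hA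
      obtain ⟨-, -, -, -, hc, -, -, -, -, -, -⟩ := hul2 A (hHul A hA)
      exact hc.le
    omega
  intro C' hC' hC'conn hC'F
  have hC'C : C' ⊆ C := fun x hx => (Finset.mem_sdiff.mp (hC' hx)).1
  have hdisj : ∀ A ∈ H, Disjoint C' A := by
    intro A hA
    obtain ⟨-, -, -, -, -, -, -, -, hd, -, -⟩ := hul2 A (hHul A hA)
    apply hd C' hC'C hC'conn hC'F
    rw [Finset.disjoint_left]
    intro x hx hxA
    exact (Finset.mem_sdiff.mp (hC' hx)).2 (Finset.mem_biUnion.mpr ⟨A, hA, hxA⟩)
  have hw0 : ∀ e : Sym2 V, (∃ v ∈ C', v ∈ e) → cer5_w G F C H p e = 0 := by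
    rintro e ⟨v, hvC, hve⟩
    unfold cer5_w
    rw [if_neg]
    rintro ⟨a, b, hab, ha, hb, hadj, hmem⟩
    have h1 := hul1 a b ha hb hadj
    have h2 := hdisj _ hmem
    rw [Finset.disjoint_left] at h2
    rw [hab, Sym2.mem_iff] at hve
    rcases hve with rfl | rfl
    · exact h2 hvC h1.2.1
    · exact h2 hvC h1.2.2
  obtain ⟨hcyc, hSC, hSrob, hShul⟩ := hGC
  by_cases hSC' : (S ∩ C').Nonempty
  · -- type 2
    have hw1 : ∑ e ∈ T, cer5_w G F C H p e = 1 := by
      rw [← hW S T ⟨hcyc, hSC, hSrob, hShul⟩]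
      exact hp
    obtain ⟨y, y', S1, T1, hP1, hS1, hT1, hyC, hy'C, hw2⟩ :=
      hARC V G S T C' (cer5_w G F C H p) hcyc hSC' (fun e _ he => hw0 e he) hw1
    have hends := PA.ends y y' S1 T1 hP1
    have hyy' : y ≠ y' := by
      rintro rfl
      obtain ⟨-, hT⟩ := PA.triv y S1 T1 hP1
      rw [hT, Finset.sum_empty] at hw2
      exact zero_ne_one hw2
    have hS1S : S1 ⊆ S := fun x hx => (Finset.mem_sdiff.mp (hS1 hx)).1
    have hS1C' : ∀ x ∈ S1, x ∉ C' := fun x hx => (Finset.mem_sdiff.mp (hS1 hx)).2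
    refine ⟨S1, [y, y'], ?_, ?_, ?_, ?_⟩
    · intro x hx
      exact Finset.mem_sdiff.mpr ⟨hSC (hS1S hx), hS1C' x hx⟩
    · simp [hyy']
    · intro x hx
      simp only [List.mem_cons, List.not_mem_nil, or_false] at hx
      rcases hx with rfl | rfl
      · exact ⟨hends.1, hyC⟩
      · exact ⟨hends.2, hy'C⟩
    · intro L hL hLconn hyL hy'L
      obtain ⟨l, hl, hyl⟩ := hyL
      obtain ⟨l', hl', hy'l'⟩ := hy'L
      obtain ⟨S2, T2, hS2, hP2⟩ := PA.ofconn L l l' hLconn hl hl'
      have hyS2 : ∀ x ∈ S1, x ∉ L := fun x hx hxL => hS1C' x hx (hL hxL)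
      have hc1 := PA.concat y l l' {y, l} {s(y, l)} S2 T2 (PA.edge y l hyl) hP2 (by
        intro x hx
        rw [Finset.mem_inter, Finset.mem_insert, Finset.mem_singleton] at hx
        rw [Finset.mem_singleton]
        rcases hx.1 with rfl | h
        · exact absurd (hS2 hx.2) (hyS2 _ hends.1)
        · exact h)
      have hc2 := PA.concat y l' y' ({y, l} ∪ S2) ({s(y, l)} ∪ T2) {l', y'} {s(l', y')} hc1.1
        (PA.edge l' y' hy'l'.symm) (by
          intro x hx
          rw [Finset.mem_inter, Finset.mem_insert, Finset.mem_singleton] at hx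
          rw [Finset.mem_singleton]
          rcases hx.2 with h | rfl
          · exact h
          · exfalso
            rw [Finset.mem_union, Finset.mem_insert, Finset.mem_singleton] at hx
            rcases hx.1 with (h | h) | h
            · exact hyy' h.symm
            · exact hyS2 _ hends.2 (h ▸ hl)
            · exact hyS2 _ hends.2 (hS2 h))
      obtain ⟨R, hR⟩ : ∃ R, R = {y, l} ∪ S2 ∪ {l', y'} := ⟨_, rfl⟩
      obtain ⟨TR, hTR⟩ : ∃ TR, TR = {s(y, l)} ∪ T2 ∪ {s(l', y')} := ⟨_, rfl⟩
      rw [← hR, ← hTR] at hc2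
      have hRmem : ∀ x ∈ R, x = y ∨ x = y' ∨ x ∈ L := by
        intro x hx
        rw [hR, Finset.mem_union, Finset.mem_union, Finset.mem_insert, Finset.mem_singleton,
          Finset.mem_insert, Finset.mem_singleton] at hx
        rcases hx with ((h | h) | h) | (h | h)
        · exact Or.inl h
        · exact Or.inr (Or.inr (h ▸ hl))
        · exact Or.inr (Or.inr (hS2 h))
        · exact Or.inr (Or.inr (h ▸ hl'))
        · exact Or.inr (Or.inl h)
      have hlR : l ∈ R := by
        rw [hR]; simp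
      have hTRmem : ∀ e ∈ TR, ∃ v ∈ C', v ∈ e := by
        intro e he
        rw [hTR, Finset.mem_union, Finset.mem_union, Finset.mem_singleton,
          Finset.mem_singleton] at he
        rcases he with (h | h) | h
        · exact ⟨l, hL hl, by rw [h]; simp⟩
        · obtain ⟨x, hx, z, -, -, hexz⟩ := PA.tmem l l' S2 T2 hP2 e h
          exact ⟨x, hL (hS2 hx), by rw [hexz]; simp⟩
        · exact ⟨l', hL hl', by rw [h]; simp⟩
      have hwR : ∑ e ∈ TR, cer5_w G F C H p e = 0 :=
        Finset.sum_eq_zero (fun e he => hw0 e (hTRmem e he))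
      have hne : T1 ≠ TR := by
        rintro rfl
        rw [hw2] at hwR
        exact one_ne_zero hwR
      obtain ⟨hcyc2, hdisjT⟩ := CA.mk2 y y' S1 T1 R TR hP1 hc2.1 hyy' (by
        intro x hx
        rw [Finset.mem_inter] at hx
        rw [Finset.mem_insert, Finset.mem_singleton]
        rcases hRmem x hx.2 with h | h | h
        · exact Or.inl h
        · exact Or.inr h
        · exact absurd h (hyS2 x hx.1)) hne
      have hsumw : ∑ e ∈ T1 ∪ TR, cer5_w G F C H p e = 1 := by
        rw [Finset.sum_union hdisjT, hw2, hwR, add_zero]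
      have hsub : S1 ∪ R ⊆ C := by
        intro x hx
        rw [Finset.mem_union] at hx
        rcases hx with h | h
        · exact hSC (hS1S h)
        · rcases hRmem x h with h2 | h2 | h2
          · rw [h2]; exact hSC (hS1S hends.1)
          · rw [h2]; exact hSC (hS1S hends.2)
          · exact hC'C (hL h2)
      have hrob2 : ∀ x ∈ S1 ∪ R, Rob G F C x :=
        rob2 (S1 ∪ R) (T1 ∪ TR) hcyc2 hsub y (Finset.mem_union_left _ hends.1) y'
          (Finset.mem_union_left _ hends.2) hyy' (hSrob y (hS1S hends.1))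
          (hSrob y' (hS1S hends.2))
      have hnothul : ∀ A, Hul G F C A → ¬ S1 ∪ R ⊆ A := by
        intro A hA hsubA
        -- an edge of `T1` with nonzero weight
        obtain ⟨e, he, hwe⟩ : ∃ e ∈ T1, cer5_w G F C H p e ≠ 0 := by
          by_contra hcon
          push Not at hcon
          rw [Finset.sum_eq_zero hcon] at hw2
          exact zero_ne_one hw2
        obtain ⟨a, b, hab, ha, hb, hadj, hmem⟩ : ∃ a b, e = s(a, b) ∧ Rob G F C a ∧
            Rob G F C b ∧ G.Adj a b ∧ cl G F C 5 {a, b} ∈ H := by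
          by_contra hcon
          apply hwe
          unfold cer5_w
          rw [if_neg hcon]
        obtain ⟨x, hx, z, hz, hxz, hexz⟩ := PA.tmem y y' S1 T1 hP1 e he
        obtain ⟨-, -, -, -, -, -, -, hcl, -, -, -⟩ := hul2 A hA
        have hxA : x ∈ A := hsubA (Finset.mem_union_left _ hx)
        have hzA : z ∈ A := hsubA (Finset.mem_union_left _ hz)
        have hrx := hrob2 x (Finset.mem_union_left _ hx)
        have hrz := hrob2 z (Finset.mem_union_left _ hz)
        have hclA : cl G F C 5 {a, b} = A := by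
          rw [hexz] at hab
          rcases Sym2.eq_iff.mp hab with ⟨rfl, rfl⟩ | ⟨rfl, rfl⟩
          · exact hcl x z hrx hrz hxz.ne hxA hzA
          · rw [Finset.pair_comm]; exact hcl x z hrx hrz hxz.ne hxA hzA
        rw [hclA] at hmem
        have := hdisj A hmem
        rw [Finset.disjoint_left] at this
        exact this (hL hl) (hsubA (Finset.mem_union_right _ hlR))
      have hGC2 : GC G F C (S1 ∪ R) (T1 ∪ TR) := ⟨hcyc2, hsub, hrob2, hnothul⟩
      have hp2 : ∑ e ∈ T1 ∪ TR, p e = 1 := by
        rw [hW _ _ hGC2]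
        exact hsumw
      refine ⟨S1 ∪ R, hF _ _ hcyc2 hp2, ?_⟩
      intro x hx
      rw [Finset.mem_union] at hx ⊢
      rcases hx with h | h
      · exact Or.inl h
      · rcases hRmem x h with h2 | h2 | h2
        · left; rw [h2]; exact hends.1
        · left; rw [h2]; exact hends.2
        · exact Or.inr h2
  · -- type 0
    rw [Finset.not_nonempty_iff_eq_empty] at hSC'
    refine ⟨S, [], ?_, List.nodup_nil, by simp, ?_⟩
    · intro x hx
      rw [Finset.mem_sdiff]
      refine ⟨hSC hx, fun hxC => ?_⟩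
      have : x ∈ S ∩ C' := Finset.mem_inter.mpr ⟨hx, hxC⟩
      rw [hSC'] at this
      simp at this
    · exact ⟨S, hF S T hcyc hp, Finset.Subset.refl S⟩

end ErdPos
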